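import Pool.Agent.H3.RJ.Defs

/-!
# RJ Comb: the exchanges at different sites add up

`comb`: `I ⊆ F` independent in `G`, `J` independent in `H`, disjoint from `X i` and `X' i` for all `i ∈ I`.  Then `J.card + I.card < k`.
Proof: for `i ∈ I` take `A i ⊆ P i` from `Site.gain`; the `A i` are pairwise disjoint and `A = ⋃ A i` is independent (`anti`), disjoint from `J`.
`K = (J \ nbIn H A J) ∪ A` is independent, `nbIn H A J = ⋃ nbIn H (A i) J`, so
`k > K.card ≥ J.card - ∑ (nbIn H (A i) J).card + ∑ (A i).card ≥ J.card + I.card`.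
-/

set_option autoImplicit false

open Finset Pool.Agent.H41.RamseyStep

namespace Pool.Agent.H3.RJ

theorem comb {V W : Type*} [DecidableEq V] [DecidableEq W] {H : SimpleGraph V} {G : SimpleGraph W} {F : Finset W}
    {X X' P : W → Finset V} {k : ℕ} (hH : Good H k) (hS : Sys H G F X X' P) (I : Finset W) (hI : I ⊆ F) (hIG : Ind G I)
    (J : Finset V) (hJ : Ind H J) (hX : ∀ i ∈ I, Disjoint J (X i)) (hX' : ∀ i ∈ I, Disjoint J (X' i)) :
    J.card + I.card < k := by
  classical
  have hex : ∀ i : W, ∃ A : Finset V, i ∈ I → A ⊆ P i ∧ Ind H A ∧ Disjoint A J ∧ (nbIn H A J).card + 1 ≤ A.card := by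
    intro i
    by_cases hi : i ∈ I
    · obtain ⟨A, hA⟩ := (hS.site i (hI hi)).gain J hJ (hX i hi) (hX' i hi)
      exact ⟨A, fun _ => hA⟩
    · exact ⟨∅, fun h => absurd h hi⟩
  choose A hA using hex
  set U := I.biUnion A with hU
  set N := I.biUnion (fun i => nbIn H (A i) J) with hN
  set K := (J \ N) ∪ U with hK
  -- pairwise disjoint
  have hpd : ∀ i ∈ I, ∀ i' ∈ I, i ≠ i' → Disjoint (A i) (A i') := by
    intro i hi i' hi' hne
    rw [Finset.disjoint_left]
    intro x hx hx'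
    exact (hS.anti i (hI hi) i' (hI hi') hne (hIG i hi i' hi') x ((hA i hi).1 hx) x ((hA i' hi').1 hx')).1 rfl
  have hUc : U.card = ∑ i ∈ I, (A i).card := by
    rw [hU, card_biUnion]
    intro i hi i' hi' hne
    exact hpd i hi i' hi' hne
  have hNc : N.card ≤ ∑ i ∈ I, (nbIn H (A i) J).card := card_biUnion_le
  have hsum : ∑ i ∈ I, (nbIn H (A i) J).card + I.card ≤ ∑ i ∈ I, (A i).card := by
    rw [Finset.card_eq_sum_ones, ← sum_add_distrib]
    exact sum_le_sum fun i hi => (hA i hi).2.2.2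
  have hUJ : Disjoint U J := by
    rw [hU, Finset.disjoint_biUnion_left]
    exact fun i hi => (hA i hi).2.2.1
  have hKc : K.card = (J \ N).card + U.card := by
    rw [hK, card_union_of_disjoint]
    exact (hUJ.symm.mono_left sdiff_subset)
  have hJN : J.card ≤ (J \ N).card + N.card := by
    have := Finset.card_le_card_sdiff_add_card (s := J) (t := N)
    omega
  have hUU : ∀ x ∈ U, ∀ y ∈ U, ¬ H.Adj x y := by
    intro x hx y hy hxy
    rw [hU, mem_biUnion] at hx hy
    obtain ⟨i, hi, hx⟩ := hx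
    obtain ⟨i', hi', hy⟩ := hy
    by_cases hii : i = i'
    · subst hii
      exact (hA i hi).2.1 x hx y hy hxy
    · exact (hS.anti i (hI hi) i' (hI hi') hii (hIG i hi i' hi') x ((hA i hi).1 hx) y ((hA i' hi').1 hy)).2 hxy
  have hUJn : ∀ x ∈ U, ∀ y ∈ J \ N, ¬ H.Adj x y := by
    intro x hx y hy hxy
    rw [hU, mem_biUnion] at hx
    obtain ⟨i, hi, hx⟩ := hx
    rw [mem_sdiff] at hy
    apply hy.2
    rw [hN, mem_biUnion]
    refine ⟨i, hi, ?_⟩
    unfold nbIn
    rw [mem_filter]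
    exact ⟨hy.1, x, hx, hxy⟩
  have hKi : ∀ x ∈ K, ∀ y ∈ K, ¬ H.Adj x y := by
    intro x hx y hy hxy
    rw [hK, mem_union] at hx hy
    rcases hx with hx | hx <;> rcases hy with hy | hy
    · exact hJ x (mem_sdiff.1 hx).1 y (mem_sdiff.1 hy).1 hxy
    · exact hUJn y hy x hx hxy.symm
    · exact hUJn x hx y hy hxy
    · exact hUU x hx y hy hxy
  have := hH.2 K hKi
  omega

end Pool.Agent.H3.RJ
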