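import Pool.Agent.H3.RJ.Comb

/-!
# RJ Cst: the construction

Vertices `V ⊕ (W ⊕ F)`: `H` on `V`; two vertices of `W ⊕ F` are adjacent iff their projections to `W` are adjacent in `G`;
`inl w`, `w ∈ F`, is joined to `X w ⊆ V`, `inl w`, `w ∉ F`, to nothing in `V`; `inr i` is joined to `X' i`.
Triangle-free: `H`, `G` are, the sets are independent, adjacent ones are disjoint.  Independent set: its part in `W ⊕ F` projects to an
independent set of `G` (at most `j` vertices), `I` = the `i ∈ F` with both copies, size `≤ j + I.card`; the part `J` in `V`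
avoids `X i, X' i` for `i ∈ I`: `comb`.
-/

set_option autoImplicit false

open Finset Pool.Agent.H41.RamseyStep

namespace Pool.Agent.H3.RJ

section

variable {V W : Type*} [DecidableEq V] [DecidableEq W]

/-- the projection of the new vertices to `W` -/
def cstPi (F : Finset W) : W ⊕ {i // i ∈ F} → W
  | Sum.inl w => w
  | Sum.inr i => i

/-- the neighbours in `V` of the new vertices -/
def cstLab (F : Finset W) (X X' : W → Finset V) : W ⊕ {i // i ∈ F} → Finset V
  | Sum.inl w => if w ∈ F then X w else ∅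
  | Sum.inr i => X' i

/-- the adjacency of the new graph -/
def cstAdj (H : SimpleGraph V) (G : SimpleGraph W) (F : Finset W) (X X' : W → Finset V) :
    V ⊕ (W ⊕ {i // i ∈ F}) → V ⊕ (W ⊕ {i // i ∈ F}) → Prop
  | Sum.inl v, Sum.inl v' => H.Adj v v'
  | Sum.inl v, Sum.inr u => v ∈ cstLab F X X' u
  | Sum.inr u, Sum.inl v => v ∈ cstLab F X X' u
  | Sum.inr u, Sum.inr u' => G.Adj (cstPi F u) (cstPi F u')

/-- the new graph -/
def cstG (H : SimpleGraph V) (G : SimpleGraph W) (F : Finset W) (X X' : W → Finset V) :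
    SimpleGraph (V ⊕ (W ⊕ {i // i ∈ F})) where
  Adj := cstAdj H G F X X'
  symm := ⟨by
    rintro (v | u) (v' | u') h
    · exact H.adj_symm h
    · exact h
    · exact h
    · exact G.adj_symm h⟩
  loopless := ⟨by
    rintro (v | u) h
    · exact H.loopless.irrefl _ h
    · exact G.loopless.irrefl _ h⟩

variable {H : SimpleGraph V} {G : SimpleGraph W} {F : Finset W} {X X' P : W → Finset V}

theorem cst_lab_ind (hS : Sys H G F X X' P) (u : W ⊕ {i // i ∈ F}) : Ind H (cstLab F X X' u) := by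
  rcases u with w | i
  · by_cases hw : w ∈ F
    · simp only [cstLab, if_pos hw]
      exact (hS.site w hw).indX
    · simp only [cstLab, if_neg hw]
      intro x hx
      exact absurd hx (Finset.notMem_empty x)
  · exact (hS.site i i.2).indX'

theorem cst_lab_sub (u : W ⊕ {i // i ∈ F}) {v : V} (hv : v ∈ cstLab F X X' u) :
    cstPi F u ∈ F ∧ v ∈ X (cstPi F u) ∪ X' (cstPi F u) := by
  rcases u with w | i
  · by_cases hw : w ∈ F
    · simp only [cstLab, if_pos hw] at hv
      exact ⟨hw, mem_union_left _ hv⟩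
    · simp only [cstLab, if_neg hw] at hv
      exact absurd hv (Finset.notMem_empty v)
  · exact ⟨i.2, mem_union_right _ hv⟩

theorem cst_lab_disj (hS : Sys H G F X X' P) {u u' : W ⊕ {i // i ∈ F}} (h : G.Adj (cstPi F u) (cstPi F u')) {v : V}
    (hv : v ∈ cstLab F X X' u) (hv' : v ∈ cstLab F X X' u') : False := by
  obtain ⟨h1, h2⟩ := cst_lab_sub u hv
  obtain ⟨h3, h4⟩ := cst_lab_sub u' hv'
  exact Finset.disjoint_left.1 (hS.disj _ h1 _ h3 h) h2 h4

theorem cst_tf {k j : ℕ} (hH : Good H k) (hG : Good G (j + 1)) (hS : Sys H G F X X' P) (a b c : V ⊕ (W ⊕ {i // i ∈ F}))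
    (h1 : (cstG H G F X X').Adj a b) (h2 : (cstG H G F X X').Adj b c) (h3 : (cstG H G F X X').Adj a c) : False := by
  rcases a with a | a <;> rcases b with b | b <;> rcases c with c | c
  · exact hH.1 a b c h1 h2 h3
  · exact cst_lab_ind hS c a h3 b h2 h1
  · exact cst_lab_ind hS b a h1 c h2 h3
  · exact cst_lab_disj hS (u := b) (u' := c) h2 h1 h3
  · exact cst_lab_ind hS a b h1 c h3 h2
  · exact cst_lab_disj hS (u := a) (u' := c) h3 h1 h2
  · exact cst_lab_disj hS (u := a) (u' := b) h1 h3 h2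
  · exact hG.1 _ _ _ h1 h2 h3

theorem cst_ind {k j : ℕ} (hH : Good H k) (hG : Good G (j + 1)) (hS : Sys H G F X X' P)
    (s : Finset (V ⊕ (W ⊕ {i // i ∈ F}))) (hs : ∀ x ∈ s, ∀ y ∈ s, ¬ (cstG H G F X X').Adj x y) :
    s.card < k + j := by
  classical
  set J : Finset V := s.toLeft with hJ
  set S : Finset (W ⊕ {i // i ∈ F}) := s.toRight with hSd
  have hcard : s.card = J.card + S.card := by
    rw [hJ, hSd]
    exact (Finset.card_toLeft_add_card_toRight).symm
  have hJm : ∀ v, v ∈ J ↔ Sum.inl v ∈ s := fun v => Finset.mem_toLeft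
  have hSm : ∀ u, u ∈ S ↔ Sum.inr u ∈ s := fun u => Finset.mem_toRight
  set A : Finset W := S.toLeft with hA
  set B : Finset {i // i ∈ F} := S.toRight with hB
  have hcS : S.card = A.card + B.card := (Finset.card_toLeft_add_card_toRight).symm
  have hAm : ∀ w, w ∈ A ↔ Sum.inr (Sum.inl w) ∈ s := fun w => by rw [hA, Finset.mem_toLeft, hSm]
  have hBm : ∀ i, i ∈ B ↔ Sum.inr (Sum.inr i) ∈ s := fun i => by rw [hB, Finset.mem_toRight, hSm]
  set B' : Finset W := B.image Subtype.val with hB'
  have hB'c : B'.card = B.card := card_image_of_injective _ Subtype.val_injective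
  have hB'm : ∀ w, w ∈ B' → w ∈ F ∧ ∃ h : w ∈ F, Sum.inr (Sum.inr ⟨w, h⟩) ∈ s := by
    intro w hw
    rw [hB', mem_image] at hw
    obtain ⟨i, hi, rfl⟩ := hw
    exact ⟨i.2, i.2, (hBm i).1 hi⟩
  -- the projection is independent
  have hpi : ∀ w ∈ A ∪ B', ∃ u, Sum.inr u ∈ s ∧ cstPi F u = w := by
    intro w hw
    rw [mem_union] at hw
    rcases hw with hw | hw
    · exact ⟨Sum.inl w, (hAm w).1 hw, rfl⟩
    · obtain ⟨_, h, hm⟩ := hB'm w hw
      exact ⟨Sum.inr ⟨w, h⟩, hm, rfl⟩
  have hABi : ∀ x ∈ A ∪ B', ∀ y ∈ A ∪ B', ¬ G.Adj x y := by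
    intro x hx y hy hxy
    obtain ⟨u, hu, rfl⟩ := hpi x hx
    obtain ⟨u', hu', rfl⟩ := hpi y hy
    exact hs _ hu _ hu' hxy
  have hAB := hG.2 _ hABi
  set I := A ∩ B' with hI
  have hIc : A.card + B'.card = (A ∪ B').card + I.card := (card_union_add_card_inter A B').symm
  have hcomb := comb hH hS I (fun w hw => (hB'm w (mem_inter.1 hw).2).1)
    (fun x hx y hy => hABi x (mem_union_left _ (mem_inter.1 hx).1) y (mem_union_left _ (mem_inter.1 hy).1))
    J (fun x hx y hy => hs _ ((hJm x).1 hx) _ ((hJm y).1 hy)) (by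
      intro i hi
      rw [Finset.disjoint_left]
      intro v hv hvX
      have hiF := (hB'm i (mem_inter.1 hi).2).1
      have h1 := (hAm i).1 (mem_inter.1 hi).1
      refine hs _ ((hJm v).1 hv) _ h1 ?_
      change v ∈ cstLab F X X' (Sum.inl i)
      simp only [cstLab, if_pos hiF]
      exact hvX) (by
      intro i hi
      rw [Finset.disjoint_left]
      intro v hv hvX
      obtain ⟨_, h, hm⟩ := hB'm i (mem_inter.1 hi).2
      exact hs _ ((hJm v).1 hv) _ hm hvX)
  omega

end

theorem con {V W : Type*} [Fintype V] [Fintype W] [DecidableEq V] [DecidableEq W] {H : SimpleGraph V}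
    {G : SimpleGraph W} {F : Finset W} {X X' P : W → Finset V} {k j : ℕ} (hH : Good H k) (hG : Good G (j + 1))
    (hS : Sys H G F X X' P) : Fintype.card V + Fintype.card W + F.card < R (k + j) := by
  have hg : Good (cstG H G F X X') (k + j) := ⟨cst_tf hH hG hS, cst_ind hH hG hS⟩
  have h := hg.card_lt
  rw [Fintype.card_sum, Fintype.card_sum, Fintype.card_coe] at h
  omega

end Pool.Agent.H3.RJ
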