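import Pool.Agent.H41.RamseyStep

/-!
# PROJECT RJ (MP_6bbf13_co, sums of consecutive differences of the Ramsey numbers R(3,k)): definitions

Main theorem: let `G` be triangle-free without independent sets of more than `j` vertices and let `F` be a set of vertices of `G` inducing a
subgraph of maximum degree `≤ 1`.  Then `R (k + j) ≥ R k + |G| + |F|` for all large `k`.
-/

set_option autoImplicit false

open Finset

namespace Pool.Agent.H3.RJ

/-- triangle-free -/
def TF {V : Type*} (G : SimpleGraph V) : Prop := ∀ a b c, G.Adj a b → G.Adj b c → G.Adj a c → False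

/-- an independent set of vertices -/
def Ind {V : Type*} (G : SimpleGraph V) (s : Finset V) : Prop := ∀ x ∈ s, ∀ y ∈ s, ¬ G.Adj x y

open scoped Classical in
/-- the neighbours of the set `A` in the set `J` -/
noncomputable def nbIn {V : Type*} (G : SimpleGraph V) (A J : Finset V) : Finset V :=
  J.filter (fun y => ∃ x ∈ A, G.Adj x y)

open scoped Classical in
/-- the neighbourhood of a vertex -/
noncomputable def nb {V : Type*} [Fintype V] (G : SimpleGraph V) (v : V) : Finset V :=
  univ.filter (fun y => G.Adj v y)

/-- A site: two independent sets `X, X'` and a support `P`, such that every independent set `J` which avoids `X` and `X'` is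
enlarged by exchanging its neighbours of some independent `A ⊆ P` (disjoint from `J`) for `A`. -/
structure Site {V : Type*} (G : SimpleGraph V) (X X' P : Finset V) : Prop where
  indX : Ind G X
  indX' : Ind G X'
  gain : ∀ J : Finset V, Ind G J → Disjoint J X → Disjoint J X' →
    ∃ A : Finset V, A ⊆ P ∧ Ind G A ∧ Disjoint A J ∧ (nbIn G A J).card + 1 ≤ A.card

/-- A gadget: two sites whose sets are disjoint, with at most four vertices in the supports. -/
structure Gadget {V : Type*} [DecidableEq V] (G : SimpleGraph V) (X X' P Y Y' Q : Finset V) : Prop where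
  siteX : Site G X X' P
  siteY : Site G Y Y' Q
  disj : Disjoint (X ∪ X') (Y ∪ Y')
  card_le : (P ∪ Q).card ≤ 4

/-- every vertex of `F` has at most one neighbour in `F` -/
def DegOne {W : Type*} (G : SimpleGraph W) (F : Finset W) : Prop :=
  ∀ i ∈ F, ∀ i' ∈ F, ∀ i'' ∈ F, G.Adj i i' → G.Adj i i'' → i' = i''

/-- A system of sites for `F`: adjacent vertices of `F` have disjoint sets, different non-adjacent ones have anticomplete supports. -/
structure Sys {V W : Type*} [DecidableEq V] (H : SimpleGraph V) (G : SimpleGraph W) (F : Finset W)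
    (X X' P : W → Finset V) : Prop where
  site : ∀ i ∈ F, Site H (X i) (X' i) (P i)
  disj : ∀ i ∈ F, ∀ i' ∈ F, G.Adj i i' → Disjoint (X i ∪ X' i) (X i' ∪ X' i')
  anti : ∀ i ∈ F, ∀ i' ∈ F, i ≠ i' → ¬ G.Adj i i' → ∀ x ∈ P i, ∀ y ∈ P i', x ≠ y ∧ ¬ H.Adj x y

end Pool.Agent.H3.RJ
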