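import Pool.Agent.H3.RJ.Sit

/-!
# RJ Gad: existence of a gadget with supports in a large set `U`

`H` triangle-free, all degrees `≤ D`, `|U|^2 > 7 |Uᶜ| D^2 + |U| (D + 10)`.  Suppose there is no gadget with supports in `U`.
(i) two different non-adjacent `u, v ∈ U` have a common neighbour (otherwise `{u}, N(u)` and `{v}, N(v)`, supports `{u}, {v}`).
(ii) two different `u, v ∈ U` have at most one common neighbour in `U` (a 4-cycle `a d b c` in `U`: `site_pair a b d`, `site_pair d c a`:
     `N(a) \ d`, `(N(b) \ N(a)) ∪ a` are disjoint from `N(d) \ a`, `(N(c) \ N(d)) ∪ d`; all disjointness from triangle-freeness and the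
     removed vertices: `gadget_cycle`).
(iii) no vertex `x` has four different neighbours `a, b, a', b'` in `U` such that every two of them have `x` as their only common
     neighbour (`site_pair a b x`, `site_pair a' b' x`: `gadget_star`).
Call an ordered pair `(u, v)` of different elements of `U` bad if it has a common neighbour outside
`U`, so there are at most `|Uᶜ| D^2` bad pairs.  For `x ∈ U` let `d_x = |N(x) ∩ U|`, `B_x` the number of bad ordered pairs in `N(x) ∩ U`; by (ii)
and (iii) the graph of the pairs which are not bad has no 4-clique on `N(x) ∩ U`, so (Turan) `d_x^2 / 3 ≤ d_x + B_x`, and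
`∑_{x ∈ U} B_x ≤ |Uᶜ| D^2` by (ii).  As `d^2/3 - d ≥ d^2/6 - 3/2`: `∑_{x ∈ U} d_x^2 ≤ 6 |Uᶜ| D^2 + 9 |U|`.
By (i) `|U|^2 - |U| - |U| D ≤ ∑_{x ∈ V} d_x^2 ≤ 7 |Uᶜ| D^2 + 9 |U|`, contradiction.
-/

set_option autoImplicit false

open Finset

namespace Pool.Agent.H3.RJ

private theorem turan4 {V : Type*} [DecidableEq V] (T : Finset V) (g : V → V → Prop) [DecidableRel g]
    (hs : ∀ u v, g u v → g v u) (hi : ∀ u, ¬ g u u)
    (h4 : ∀ a ∈ T, ∀ b ∈ T, ∀ c ∈ T, ∀ d ∈ T, g a b → g a c → g a d → g b c → g b d → g c d → False) :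
    3 * ((T ×ˢ T).filter (fun p => g p.1 p.2)).card ≤ 2 * T.card ^ 2 := by
  classical
  let G : SimpleGraph T := { Adj := fun u v => g u v, symm := ⟨fun u v h => hs _ _ h⟩, loopless := ⟨fun u => hi _⟩ }
  have hadj : ∀ u v : T, G.Adj u v ↔ g u v := fun u v => Iff.rfl
  have hfree : G.CliqueFree (3 + 1) := by
    rw [SimpleGraph.cliqueFree_iff]
    refine ⟨fun f => ?_⟩
    have hf : ∀ i j : Fin 4, i ≠ j → g (f i) (f j) := by
      intro i j hij
      exact f.toHom.map_adj (by simpa using hij)
    exact h4 _ (f 0).2 _ (f 1).2 _ (f 2).2 _ (f 3).2 (hf 0 1 (by decide)) (hf 0 2 (by decide))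
      (hf 0 3 (by decide)) (hf 1 2 (by decide)) (hf 1 3 (by decide)) (hf 2 3 (by decide))
  have h1 := hfree.card_edgeFinset_le
  have h2 := SimpleGraph.mul_card_edgeFinset_turanGraph_le (n := Fintype.card T) (r := 3)
  rw [SimpleGraph.card_edgeFinset_turanGraph] at h2
  have h3 := G.sum_degrees_eq_twice_card_edges
  have h4 : ∑ u : T, G.degree u = ((T ×ˢ T).filter (fun p => g p.1 p.2)).card := by
    rw [Finset.card_filter, Finset.sum_product]
    rw [← Finset.sum_coe_sort T]
    refine Finset.sum_congr rfl fun u _ => ?_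
    rw [← Finset.sum_coe_sort T, ← SimpleGraph.card_neighborFinset_eq_degree,
      SimpleGraph.neighborFinset_eq_filter, Finset.card_filter]
  rw [h4] at h3
  rw [h3]
  simp only [Fintype.card_coe] at h1 h2
  omega

private theorem mem_nb {V : Type*} [Fintype V] {H : SimpleGraph V} {v y : V} : y ∈ nb H v ↔ H.Adj v y := by
  classical
  unfold nb
  simp

private theorem gadget_far {V : Type*} [Fintype V] [DecidableEq V] {H : SimpleGraph V} (hT : TF H) {u v : V}
    (huv : u ≠ v) (hadj : ¬ H.Adj u v) (hc : ∀ x, H.Adj x u → H.Adj x v → False) :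
    Gadget H {u} (nb H u) {u} {v} (nb H v) {v} := by
  refine ⟨site_vertex hT u, site_vertex hT v, ?_, ?_⟩
  · rw [Finset.disjoint_left]
    intro z hz hz'
    simp only [mem_union, mem_singleton, mem_nb] at hz hz'
    rcases hz with rfl | hz <;> rcases hz' with hz' | hz'
    · exact huv hz'
    · exact hadj hz'.symm
    · subst hz'
      exact hadj hz
    · exact hc z hz.symm hz'.symm
  · refine (card_union_le _ _).trans ?_
    simp

private theorem gadget_cycle {V : Type*} [Fintype V] [DecidableEq V] {H : SimpleGraph V} (hT : TF H)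
    {a b c d : V} (hab : a ≠ b) (hdc : d ≠ c) (hda : H.Adj d a) (hdb : H.Adj d b) (hca : H.Adj c a)
    (hcb : H.Adj c b) :
    Gadget H (nb H a \ {d}) ((nb H b \ nb H a) ∪ {a}) {a, b} (nb H d \ {a}) ((nb H c \ nb H d) ∪ {d}) {d, c} := by
  refine ⟨site_pair hT hab hda hdb, site_pair hT hdc hda.symm hca.symm, ?_, ?_⟩
  · rw [Finset.disjoint_left]
    intro z hz hz'
    simp only [mem_union, mem_singleton, mem_nb, mem_sdiff] at hz hz'
    have hza : z ≠ a := by
      rintro rfl
      rcases hz' with h | h | h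
      · exact h.2 rfl
      · exact h.2 hda
      · exact hda.ne h.symm
    have hzd : z ≠ d := by
      rintro rfl
      rcases hz with h | h | h
      · exact h.2 rfl
      · exact h.2 hda.symm
      · exact hda.ne h
    have h1 : H.Adj a z ∨ H.Adj b z := by
      rcases hz with h | h | h
      · exact Or.inl h.1
      · exact Or.inr h.1
      · exact absurd h hza
    have h2 : H.Adj d z ∨ H.Adj c z := by
      rcases hz' with h | h | h
      · exact Or.inl h.1
      · exact Or.inr h.1
      · exact absurd h hzd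
    rcases h1 with h1 | h1 <;> rcases h2 with h2 | h2
    · exact hT d a z hda h1 h2
    · exact hT c a z hca h1 h2
    · exact hT d b z hdb h1 h2
    · exact hT c b z hcb h1 h2
  · refine (card_union_le _ _).trans ?_
    have h1 := card_le_two (a := a) (b := b)
    have h2 := card_le_two (a := d) (b := c)
    omega

private theorem gadget_star {V : Type*} [Fintype V] [DecidableEq V] {H : SimpleGraph V} (hT : TF H)
    {x a b a' b' : V} (hab : a ≠ b) (hab' : a' ≠ b') (ha : H.Adj x a) (hb : H.Adj x b) (ha' : H.Adj x a')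
    (hb' : H.Adj x b') (haa : a ≠ a') (h1 : ∀ z, H.Adj z a → H.Adj z a' → z = x)
    (h2 : ∀ z, H.Adj z a → H.Adj z b' → z = x) (h3 : ∀ z, H.Adj z b → H.Adj z a' → z = x)
    (h4 : ∀ z, H.Adj z b → H.Adj z b' → z = x) :
    Gadget H (nb H a \ {x}) ((nb H b \ nb H a) ∪ {a}) {a, b} (nb H a' \ {x}) ((nb H b' \ nb H a') ∪ {a'})
      {a', b'} := by
  refine ⟨site_pair hT hab ha hb, site_pair hT hab' ha' hb', ?_, ?_⟩
  · rw [Finset.disjoint_left]
    intro z hz hz'
    simp only [mem_union, mem_singleton, mem_nb, mem_sdiff] at hz hz'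
    have hzx : z ≠ x := by
      rintro rfl
      rcases hz with h | h | h
      · exact h.2 rfl
      · exact h.2 ha.symm
      · exact ha.ne h
    have hza : z ≠ a := by
      rintro rfl
      rcases hz' with h | h | h
      · exact hT x a' z ha' h.1 ha
      · exact hT x b' z hb' h.1 ha
      · exact haa h
    have hza' : z ≠ a' := by
      rintro rfl
      rcases hz with h | h | h
      · exact hT x a z ha h.1 ha'
      · exact hT x b z hb h.1 ha'
      · exact haa h.symm
    have k1 : H.Adj a z ∨ H.Adj b z := by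
      rcases hz with h | h | h
      · exact Or.inl h.1
      · exact Or.inr h.1
      · exact absurd h hza
    have k2 : H.Adj a' z ∨ H.Adj b' z := by
      rcases hz' with h | h | h
      · exact Or.inl h.1
      · exact Or.inr h.1
      · exact absurd h hza'
    rcases k1 with k1 | k1 <;> rcases k2 with k2 | k2
    · exact hzx (h1 z k1.symm k2.symm)
    · exact hzx (h2 z k1.symm k2.symm)
    · exact hzx (h3 z k1.symm k2.symm)
    · exact hzx (h4 z k1.symm k2.symm)
  · refine (card_union_le _ _).trans ?_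
    have h1 := card_le_two (a := a) (b := b)
    have h2 := card_le_two (a := a') (b := b')
    omega

theorem exists_gadget {V : Type*} [Fintype V] [DecidableEq V] {H : SimpleGraph V} (hT : TF H) (D : ℕ)
    (hD : ∀ v, (nb H v).card ≤ D) (U : Finset V)
    (hU : 7 * (Uᶜ).card * D ^ 2 + U.card * (D + 10) < U.card ^ 2) :
    ∃ X X' P Y Y' Q : Finset V, Gadget H X X' P Y Y' Q ∧ P ⊆ U ∧ Q ⊆ U := by
  classical
  by_contra hno
  have hi : ∀ u ∈ U, ∀ v ∈ U, u ≠ v → ¬ H.Adj u v → ∃ x, H.Adj x u ∧ H.Adj x v := by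
    intro u hu v hv huv hadj
    by_contra hx
    push Not at hx
    exact hno ⟨_, _, _, _, _, _, gadget_far hT huv hadj fun x h h' => hx x h h',
      by simpa using hu, by simpa using hv⟩
  have hii : ∀ u ∈ U, ∀ v ∈ U, u ≠ v → ∀ x ∈ U, ∀ y ∈ U, H.Adj x u → H.Adj x v → H.Adj y u → H.Adj y v →
      x = y := by
    intro u hu v hv huv x hx y hy h1 h2 h3 h4
    by_contra hxy
    refine hno ⟨_, _, _, _, _, _, gadget_cycle hT (a := u) (b := v) (d := x) (c := y) huv hxy h1 h2 h3 h4,
      ?_, ?_⟩
    · intro z hz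
      simp only [mem_insert, mem_singleton] at hz
      rcases hz with rfl | rfl <;> assumption
    · intro z hz
      simp only [mem_insert, mem_singleton] at hz
      rcases hz with rfl | rfl <;> assumption
  set T : V → Finset V := fun x => U.filter (fun y => H.Adj x y) with hTdef
  have hmT : ∀ x y, y ∈ T x ↔ y ∈ U ∧ H.Adj x y := by
    intro x y
    simp [hTdef]
  have hTc : ∀ x, (T x).card ≤ D := by
    intro x
    refine (card_le_card ?_).trans (hD x)
    intro y hy
    exact mem_nb.2 ((hmT x y).1 hy).2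
  set bad : V → V → Prop := fun u v => ∃ w ∈ Uᶜ, H.Adj w u ∧ H.Adj w v with hbad
  have hbs : ∀ u v, bad u v → bad v u := by
    rintro u v ⟨w, hw, h1, h2⟩
    exact ⟨w, hw, h2, h1⟩
  set BP : Finset (V × V) := (U ×ˢ U).filter (fun p => p.1 ≠ p.2 ∧ bad p.1 p.2) with hBP
  have hA : BP.card ≤ (Uᶜ).card * D ^ 2 := by
    have h1 : BP ⊆ (Uᶜ).biUnion (fun w => T w ×ˢ T w) := by
      intro p hp
      simp only [hBP, mem_filter, mem_product] at hp
      obtain ⟨⟨hp1, hp2⟩, _, w, hw, h1, h2⟩ := hp
      simp only [mem_biUnion, mem_product]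
      exact ⟨w, hw, (hmT _ _).2 ⟨hp1, h1⟩, (hmT _ _).2 ⟨hp2, h2⟩⟩
    refine (card_le_card h1).trans (card_biUnion_le.trans ?_)
    rw [← smul_eq_mul]
    refine sum_le_card_nsmul _ _ _ fun w _ => ?_
    rw [card_product, sq]
    exact Nat.mul_le_mul (hTc w) (hTc w)
  set Bx : V → Finset (V × V) := fun x => (T x ×ˢ T x).filter (fun p => p.1 ≠ p.2 ∧ bad p.1 p.2) with hBx
  have hB : ∀ x ∈ U, (T x).card ^ 2 ≤ 9 + 6 * (Bx x).card := by
    intro x hx
    have ht := turan4 (T x) (fun u v => u ≠ v ∧ ¬ bad u v) (fun u v h => ⟨h.1.symm, fun h' => h.2 (hbs _ _ h')⟩)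
      (fun u h => h.1 rfl) (by
        intro a ha b hb a' ha' b' hb' h1 h2 h3 h4 h5 h6
        rw [hmT] at ha hb ha' hb'
        have key : ∀ u v, u ∈ U → v ∈ U → H.Adj x u → H.Adj x v → (u ≠ v ∧ ¬ bad u v) →
            ∀ z, H.Adj z u → H.Adj z v → z = x := by
          intro u v hu hv hxu hxv huv z hzu hzv
          have hz : z ∈ U := by
            by_contra hz
            exact huv.2 ⟨z, mem_compl.2 hz, hzu, hzv⟩
          exact hii u hu v hv huv.1 z hz x hx hzu hzv hxu hxv
        refine hno ⟨_, _, _, _, _, _, gadget_star hT (x := x) (a := a) (b := b) (a' := a') (b' := b')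
          h1.1 h6.1 ha.2 hb.2 ha'.2 hb'.2 h2.1 (key a a' ha.1 ha'.1 ha.2 ha'.2 h2)
          (key a b' ha.1 hb'.1 ha.2 hb'.2 h3) (key b a' hb.1 ha'.1 hb.2 ha'.2 h4)
          (key b b' hb.1 hb'.1 hb.2 hb'.2 h5), ?_, ?_⟩
        · intro z hz
          simp only [mem_insert, mem_singleton] at hz
          rcases hz with rfl | rfl
          · exact ha.1
          · exact hb.1
        · intro z hz
          simp only [mem_insert, mem_singleton] at hz
          rcases hz with rfl | rfl
          · exact ha'.1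
          · exact hb'.1)
    have hsplit : (T x).card ^ 2 = (T x).card + (Bx x).card +
        ((T x ×ˢ T x).filter (fun p => p.1 ≠ p.2 ∧ ¬ bad p.1 p.2)).card := by
      have h1 : ((T x ×ˢ T x).filter (fun p => p.1 = p.2)).card = (T x).card := by
        rw [← Finset.diag_card (T x)]
        congr 1
        ext p
        simp only [mem_filter, mem_product, mem_diag]
        constructor
        · rintro ⟨⟨h1, h2⟩, h3⟩
          exact ⟨h1, h3⟩
        · rintro ⟨h1, h3⟩
          exact ⟨⟨h1, h3 ▸ h1⟩, h3⟩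
      have h2 := card_filter_add_card_filter_not (s := T x ×ˢ T x) (fun p => p.1 = p.2)
      have h3 := card_filter_add_card_filter_not (s := (T x ×ˢ T x).filter (fun p => ¬ p.1 = p.2))
        (fun p => bad p.1 p.2)
      rw [filter_filter, filter_filter] at h3
      rw [card_product, h1] at h2
      simp only [hBx, ne_eq]
      rw [sq]
      omega
    nlinarith [sq_nonneg (((T x).card : ℤ) - 3), ht, hsplit]
  have hC : ∑ x ∈ U, (Bx x).card ≤ BP.card := by
    rw [← card_biUnion]
    · refine card_le_card ?_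
      intro p hp
      simp only [mem_biUnion, hBx, mem_filter, mem_product] at hp
      obtain ⟨x, _, ⟨h1, h2⟩, h3⟩ := hp
      simp only [hBP, mem_filter, mem_product]
      exact ⟨⟨((hmT _ _).1 h1).1, ((hmT _ _).1 h2).1⟩, h3⟩
    · intro x hx y hy hxy
      change Disjoint (Bx x) (Bx y)
      rw [Finset.disjoint_left]
      intro p hp hp'
      simp only [hBx, mem_filter, mem_product] at hp hp'
      obtain ⟨⟨h1, h2⟩, h3⟩ := hp
      obtain ⟨⟨h1', h2'⟩, _⟩ := hp'
      rw [hmT] at h1 h2 h1' h2'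
      exact hxy (hii p.1 h1.1 p.2 h2.1 h3.1 x hx y hy h1.2 h2.2 h1'.2 h2'.2)
  have hDD : U.card ^ 2 ≤ U.card + U.card * D + ∑ x, (T x).card ^ 2 := by
    have h1 : ((U ×ˢ U).filter (fun p => p.1 = p.2)).card = U.card := by
      rw [← Finset.diag_card U]
      congr 1
      ext p
      simp only [mem_filter, mem_product, mem_diag]
      constructor
      · rintro ⟨⟨h1, h2⟩, h3⟩
        exact ⟨h1, h3⟩
      · rintro ⟨h1, h3⟩
        exact ⟨⟨h1, h3 ▸ h1⟩, h3⟩
    have h2 : ((U ×ˢ U).filter (fun p => H.Adj p.1 p.2)).card ≤ U.card * D := by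
      rw [card_filter, sum_product, ← smul_eq_mul]
      refine sum_le_card_nsmul _ _ _ fun u _ => ?_
      rw [← card_filter]
      exact hTc u
    have h3 : ((U ×ˢ U).filter (fun p => p.1 ≠ p.2 ∧ ¬ H.Adj p.1 p.2)).card ≤ ∑ x, (T x).card ^ 2 := by
      have h4 : (U ×ˢ U).filter (fun p => p.1 ≠ p.2 ∧ ¬ H.Adj p.1 p.2) ⊆
          (univ : Finset V).biUnion (fun x => T x ×ˢ T x) := by
        intro p hp
        simp only [mem_filter, mem_product] at hp
        obtain ⟨⟨hp1, hp2⟩, hne, hadj⟩ := hp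
        obtain ⟨x, h1, h2⟩ := hi p.1 hp1 p.2 hp2 hne hadj
        simp only [mem_biUnion, mem_product]
        exact ⟨x, mem_univ _, (hmT _ _).2 ⟨hp1, h1⟩, (hmT _ _).2 ⟨hp2, h2⟩⟩
      refine (card_le_card h4).trans (card_biUnion_le.trans ?_)
      refine sum_le_sum fun x _ => ?_
      rw [card_product, sq]
    have h5 : U ×ˢ U ⊆ (U ×ˢ U).filter (fun p => p.1 = p.2) ∪ (U ×ˢ U).filter (fun p => H.Adj p.1 p.2) ∪
        (U ×ˢ U).filter (fun p => p.1 ≠ p.2 ∧ ¬ H.Adj p.1 p.2) := by
      intro p hp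
      simp only [mem_union, mem_filter]
      by_cases h6 : p.1 = p.2
      · exact Or.inl (Or.inl ⟨hp, h6⟩)
      · by_cases h7 : H.Adj p.1 p.2
        · exact Or.inl (Or.inr ⟨hp, h7⟩)
        · exact Or.inr ⟨hp, h6, h7⟩
    have h6 := card_le_card h5
    rw [card_product] at h6
    have h7 := card_union_le ((U ×ˢ U).filter (fun p => p.1 = p.2) ∪ (U ×ˢ U).filter (fun p => H.Adj p.1 p.2))
      ((U ×ˢ U).filter (fun p => p.1 ≠ p.2 ∧ ¬ H.Adj p.1 p.2))
    have h8 := card_union_le ((U ×ˢ U).filter (fun p => p.1 = p.2)) ((U ×ˢ U).filter (fun p => H.Adj p.1 p.2))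
    rw [sq]
    omega
  have hE : ∑ x, (T x).card ^ 2 ≤ 9 * U.card + 6 * BP.card + (Uᶜ).card * D ^ 2 := by
    rw [← sum_add_sum_compl U]
    refine Nat.add_le_add ?_ ?_
    · refine (sum_le_sum hB).trans ?_
      rw [sum_add_distrib, ← mul_sum, sum_const, smul_eq_mul]
      have := hC
      linarith
    · rw [← smul_eq_mul]
      refine sum_le_card_nsmul _ _ _ fun x _ => ?_
      exact Nat.pow_le_pow_left (hTc x) 2
  nlinarith [hA, hDD, hE, hU]

end Pool.Agent.H3.RJ
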