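import Pool.Agent.H3.RJ.Defs

/-!
# RJ Sit: the sites

`site_vertex`: `X = {h}`, `X' = N(h)`, support `{h}` (`A = {h}`).
`site_pair`: `a, b` two different neighbours of `d`: `X = N(a) \ {d}`, `X' = (N(b) \ N(a)) ∪ {a}`, support `{a, b}`.  If `d ∉ J` then `A = {a}`
(`J` misses `N(a)` and `a`); if `d ∈ J` then `A = {a, b}`: `a ∉ J`, `b ∉ J` (adjacent to `d`), `J ∩ (N(a) ∪ N(b)) ⊆ {d}`.
-/

set_option autoImplicit false

open Finset

namespace Pool.Agent.H3.RJ

private theorem mem_nb {V : Type*} [Fintype V] {H : SimpleGraph V} {v y : V} :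
    y ∈ nb H v ↔ H.Adj v y := by
  classical
  unfold nb
  rw [mem_filter]
  exact ⟨fun h => h.2, fun h => ⟨mem_univ _, h⟩⟩

private theorem mem_nbIn {V : Type*} {G : SimpleGraph V} {A J : Finset V} {y : V} :
    y ∈ nbIn G A J ↔ y ∈ J ∧ ∃ x ∈ A, G.Adj x y := by
  classical
  unfold nbIn
  rw [mem_filter]

private theorem ind_nb {V : Type*} [Fintype V] {H : SimpleGraph V} (hT : TF H) (h : V) :
    Ind H (nb H h) :=
  fun _ hx _ hy hxy => hT h _ _ (mem_nb.mp hx) hxy (mem_nb.mp hy)

theorem site_vertex {V : Type*} [Fintype V] [DecidableEq V] {H : SimpleGraph V} (hT : TF H) (h : V) :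
    Site H {h} (nb H h) {h} := by
  have hI : Ind H ({h} : Finset V) := by
    intro x hx y hy hxy
    rw [mem_singleton] at hx hy
    subst hx
    subst hy
    exact hxy.ne rfl
  refine ⟨hI, ind_nb hT h, fun J _ hJ1 hJ2 => ⟨{h}, Subset.refl _, hI, hJ1.symm, ?_⟩⟩
  have h0 : nbIn H {h} J = ∅ := by
    rw [eq_empty_iff_forall_notMem]
    intro y hy
    obtain ⟨hyJ, x, hx, hxy⟩ := mem_nbIn.mp hy
    rw [mem_singleton] at hx
    subst hx
    exact disjoint_left.mp hJ2 hyJ (mem_nb.mpr hxy)
  rw [h0, card_empty, card_singleton]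

theorem site_pair {V : Type*} [Fintype V] [DecidableEq V] {H : SimpleGraph V} (hT : TF H) {a b d : V} (hab : a ≠ b)
    (ha : H.Adj d a) (hb : H.Adj d b) : Site H (nb H a \ {d}) ((nb H b \ nb H a) ∪ {a}) {a, b} := by
  have hnab : ¬ H.Adj a b := fun h => hT d a b ha h hb
  refine ⟨fun x hx y hy => ind_nb hT a x (mem_sdiff.mp hx).1 y (mem_sdiff.mp hy).1, ?_, ?_⟩
  · intro x hx y hy hxy
    rw [mem_union, mem_sdiff, mem_singleton] at hx hy
    rcases hx with hx | hx
    · rcases hy with hy | hy
      · exact ind_nb hT b x hx.1 y hy.1 hxy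
      · subst hy
        exact hx.2 (mem_nb.mpr hxy.symm)
    · subst hx
      rcases hy with hy | hy
      · exact hy.2 (mem_nb.mpr hxy)
      · exact hxy.ne hy.symm
  · intro J hJ hJ1 hJ2
    have haJ : a ∉ J := fun h =>
      disjoint_left.mp hJ2 h (mem_union_right _ (mem_singleton_self a))
    have hna : ∀ y ∈ J, H.Adj a y → y = d := by
      intro y hy hay
      by_contra hne
      exact disjoint_left.mp hJ1 hy (mem_sdiff.mpr ⟨mem_nb.mpr hay, by
        rw [mem_singleton]; exact hne⟩)
    have hnb : ∀ y ∈ J, H.Adj b y → y = d := by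
      intro y hy hby
      by_cases hay : H.Adj a y
      · exact hna y hy hay
      · exact absurd (mem_union_left _ (mem_sdiff.mpr ⟨mem_nb.mpr hby, fun h =>
          hay (mem_nb.mp h)⟩)) (disjoint_left.mp hJ2 hy)
    by_cases hd : d ∈ J
    · have hbJ : b ∉ J := fun h => hJ d hd b h hb
      refine ⟨{a, b}, Subset.refl _, ?_, ?_, ?_⟩
      · intro x hx y hy hxy
        rw [mem_insert, mem_singleton] at hx hy
        rcases hx with hx | hx <;> rcases hy with hy | hy <;> subst hx <;> subst hy
        · exact hxy.ne rfl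
        · exact hnab hxy
        · exact hnab hxy.symm
        · exact hxy.ne rfl
      · rw [disjoint_left]
        intro x hx
        rw [mem_insert, mem_singleton] at hx
        rcases hx with hx | hx <;> subst hx
        · exact haJ
        · exact hbJ
      · have hsub : nbIn H {a, b} J ⊆ {d} := by
          intro y hy
          obtain ⟨hyJ, x, hx, hxy⟩ := mem_nbIn.mp hy
          rw [mem_insert, mem_singleton] at hx
          rw [mem_singleton]
          rcases hx with hx | hx <;> subst hx
          · exact hna y hyJ hxy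
          · exact hnb y hyJ hxy
        have h1 := card_le_card hsub
        rw [card_singleton] at h1
        rw [card_pair hab]
        omega
    · refine ⟨{a}, ?_, ?_, ?_, ?_⟩
      · exact singleton_subset_iff.mpr (mem_insert_self a _)
      · intro x hx y hy hxy
        rw [mem_singleton] at hx hy
        subst hx
        subst hy
        exact hxy.ne rfl
      · rw [disjoint_singleton_left]
        exact haJ
      · have h0 : nbIn H {a} J = ∅ := by
          rw [eq_empty_iff_forall_notMem]
          intro y hy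
          obtain ⟨hyJ, x, hx, hxy⟩ := mem_nbIn.mp hy
          rw [mem_singleton] at hx
          subst hx
          exact hd (hna y hyJ hxy ▸ hyJ)
        rw [h0, card_empty, card_singleton]

end Pool.Agent.H3.RJ
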